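import Mathlib
import Pool.Agent.H424.QR.Fin

/-!
# Spherical cusp forms on `PGL_n`: bounds towards Ramanujan at almost all primes, uniformly in the form

Let `n ≥ 2`, `m = ⌊n / 2⌋`, and let `φ` be a spherical cusp form on `PGL_n` over `ℚ`, with Satake parameters `α_{i,p}`
and Langlands parameters `μ_i` at the real place. Let `θ_{φ,p} = max_i |log_p |α_{i,p}||` and
`C = ∏_{i,j} (1 + |μ_i - μ_j|)`. We show, with a constant `A` which depends only on `n`, for all `φ` and all `x ≥ 2`: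

  `∑_{p ≤ x} p^{-m (1 - 2 θ_{φ,p})} ≤ A (log (2 C) + log log (3 x))`.

So at most `A x^{m (1 - 2 ϑ)} (log (2 C) + log log (3 x))` primes `p ≤ x` have `θ_{φ,p} ≥ ϑ`. For `ϑ > 1/2 - 1/(2m)`
the exponent is less than `1`, and **`θ_{φ,p} < ϑ` for almost all primes `p ≤ x`, as soon as `x` is larger than a fixed
power of the logarithm of the conductor**: for every `κ > 1 / (1 - m (1 - 2 ϑ))` and `ε > 0` there is `B` such that for
all `φ` and all `x ≥ B (log (2 C))^κ` at most `ε x / log x` primes `p ≤ x` have `θ_{φ,p} ≥ ϑ`.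

For `n = 2` and `n = 3` this holds for every `ϑ > 0`: for every `ϑ > 0` almost all primes `p ≤ x` satisfy `θ_{φ,p} < ϑ` if
`x ≥ (log (2 C))^{1/(2ϑ) + ε}` is large. For `n = 4, 5` it holds for `ϑ > 1/4`, for `n = 6, 7` for `ϑ > 1/3`; the bounds known
for all primes have the exponents `7/64`, `5/14`, `9/22`, `1/2 - 1/(n² + 1)`.

The proof: (1) The coefficients of `log L(s, π × π~) = ∑ |∑_i α_{i,p}^k|² / (k p^{ks})` are nonnegative. The functional
equation and the Phragmen-Lindelof principle, for the entire function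
`s (s - 1) Γ_ℝ(s) L(s, π × π~)` (no other Gamma factors), bound `L(1 + δ, π × π~)` by `δ^{-1}` times a constant times
`C³`, so the logarithm at `1 + δ` is at most `log (1/δ) + A log (2 C)`; take `δ = 1 / log (3 x)`. (2) By unitarity at most
`m` of the `α_{i,p}` lie outside the unit circle. By the identities of Newton, if one of `N` complex numbers has absolute
value `R`, then one of their first `N` power sums has absolute value at least `R^k / N` (`k` its order). So some `k ≤ m`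
has `|∑_i α_{i,p}^k| ≥ p^{k θ_{φ,p}} / (2 m)`, unless `p^{θ_{φ,p}} < 2 n m`.

As in `LeastSmallTrace`, the structure `SphericalCuspForm` lists what is used of `φ`, besides the bounds of Jacquet and
Shalika `|α_{i,p}| < p^{1/2}`, `|Re μ_i| < 1/2`: the local components are unitary; the Rankin-Selberg series converges
absolutely for `Re s > 1`; `L(s, π × π~)` is entire except for a simple pole at `s = 1`, of polynomial growth in vertical
strips (not assumed to be uniform in `φ`), and it satisfies the functional equation.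
-/

set_option autoImplicit false

namespace Pool.Agent.Results.MP_fa98d2_nt.AlmostAllPrimes

open Pool.Agent.TH949.RES (SphericalCuspForm)
open Pool.Agent.H424.QR (theta)

/-- **Bounds towards the Ramanujan conjecture at almost all primes, uniformly in the spherical cusp form.** -/
theorem result {n : ℕ} (hn : 2 ≤ n) :
    (∃ A : ℝ, 0 < A ∧ ∀ (α : Nat.Primes → Fin n → ℂ) (μ : Fin n → ℂ), SphericalCuspForm α μ →
      (∀ (p : Nat.Primes) i, ‖α p i‖ < ((p : ℕ) : ℝ) ^ (1 / 2 : ℝ)) → (∀ i, |(μ i).re| < 1 / 2) →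
      ∀ x : ℝ, 2 ≤ x → (∑' p : Nat.Primes, if ((p : ℕ) : ℝ) ≤ x then
          ((p : ℕ) : ℝ) ^ (-(((n / 2 : ℕ) : ℝ) * (1 - 2 * theta α p))) else 0) ≤
        A * (Real.log (2 * ∏ i, ∏ j, (1 + ‖μ i - μ j‖)) + Real.log (Real.log (3 * x)))) ∧
    ∀ ϑ κ ε : ℝ, ϑ ≤ 1 / 2 → ((n / 2 : ℕ) : ℝ) * (1 - 2 * ϑ) < 1 → 1 / (1 - ((n / 2 : ℕ) : ℝ) * (1 - 2 * ϑ)) < κ →
      0 < ε → ∃ B : ℝ, 0 < B ∧ ∀ (α : Nat.Primes → Fin n → ℂ) (μ : Fin n → ℂ), SphericalCuspForm α μ →
        (∀ (p : Nat.Primes) i, ‖α p i‖ < ((p : ℕ) : ℝ) ^ (1 / 2 : ℝ)) → (∀ i, |(μ i).re| < 1 / 2) →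
        ∀ x : ℝ, B * Real.log (2 * ∏ i, ∏ j, (1 + ‖μ i - μ j‖)) ^ κ ≤ x →
          (({p : Nat.Primes | ((p : ℕ) : ℝ) ≤ x ∧ ϑ ≤ theta α p}.ncard : ℕ) : ℝ) ≤ ε * (x / Real.log x) :=
  Pool.Agent.H424.QR.final hn

end Pool.Agent.Results.MP_fa98d2_nt.AlmostAllPrimes
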