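import Mathlib
import Pool.Agent.H406.GLL.GL4

/-!
# Spherical cusp forms on `PGL_4`: the least prime with Satake parameters smaller than `1.7251`

Let `φ` be a spherical cusp form on `PGL_4` over `ℚ` with Satake parameters `α_{i,p}` and Langlands parameters `μ_i` at
the real place, such that the exterior square `∧² π` is cuspidal. By a theorem of Kim it is generated by a spherical
cusp form on `PGL_6`; its Satake parameters are the six products `α_{i,p} α_{j,p}`, `i < j`, and its Langlands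
parameters are the sums `λ = μ_i + μ_j`. Put `C₁ = ∏_{i,j} (1 + |μ_i - μ_j|)`, `C₂ = ∏_{i,j} (1 + |λ_i - λ_j|)`.

* For every `ε > 0` there is a constant `A`, depending only on `ε`, such that for every such `φ` there is a prime
  `p ≤ A (C₁² C₂)^{1+ε}` with `|α_{i,p}| < 1.7251` for all `i`, that is `θ_{φ,p} < log 1.7251 / log p`.
* For every `r > 1` with `R² > R + 3`, `R = r + 1 / r` (that is `r > 1.72208...`), there are constants `A`, `B`,
  depending only on `r`, such that for every such `φ` there is a prime `p ≤ A (C₁ C₂)^B` with `|α_{i,p}| < r` for all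
  `i`.

The structure `SphericalCuspForm` (starting file `Pool.Agent.TH949.RES.PGL`) lists what is used of a spherical cusp
form besides the bounds of Jacquet and Shalika: the local components are unitary; the Rankin-Selberg series converges
absolutely for `Re s > 1`; `L(s, π × π~)` is entire except for a simple pole at `s = 1`, of polynomial growth in
vertical strips (not assumed to be uniform), and it satisfies the functional equation.

The proof: let `a`, `b` be positive integers. The uniform version of Landau's theorem `Pool.Agent.TH949.UL.euler_abs`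
for `F(s) = L(s, π × π~)^a L(s, ∧² π × ∧² π~)^b / ζ(s)^(a+b)`, whose poles are zeros of `ζ`, gives a prime power
`p^k ≤ A (C₁^a C₂^b)^{1+ε}` with `a |∑_i α_{i,p}^k|² + b |∑_{i<j} (α_{i,p} α_{j,p})^k|² < a + b`. If `|α_{i,p}|^k = ρ > 1`
and `P = ρ + 1 / ρ`, unitarity gives `P² - 2 ≤ |∑_{i<j} (α_{i,p} α_{j,p})^k| + P |∑_i α_{i,p}^k|`, and so
`(P² - 2)² < (a + b) (1 / b + P² / a)`; for `a = 2`, `b = 1` this means `ρ < 1.7251`.
-/

set_option autoImplicit false

namespace Pool.Agent.Results.MP_fa98d2_nt.LeastPrimePGL4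

open Pool.Agent.TH949.RES

/-- the Satake parameters of the exterior square -/
noncomputable def ext2 (a : Fin 4 → ℂ) : Fin 6 → ℂ :=
  ![a 0 * a 1, a 0 * a 2, a 0 * a 3, a 1 * a 2, a 1 * a 3, a 2 * a 3]

/-- the Langlands parameters of the exterior square -/
def sum2 (m : Fin 4 → ℂ) : Fin 6 → ℂ := ![m 0 + m 1, m 0 + m 2, m 0 + m 3, m 1 + m 2, m 1 + m 3, m 2 + m 3]

/-- the factor `∏_{i,j} (1 + |μ_i - μ_j|)` of the analytic conductor -/
noncomputable def cond {n : ℕ} (μ : Fin n → ℂ) : ℝ := ∏ i, ∏ j, (1 + ‖μ i - μ j‖)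

/-- what is used of a spherical cusp form on `PGL_n` with the bounds of Jacquet and Shalika -/
def Form {n : ℕ} (α : Nat.Primes → Fin n → ℂ) (μ : Fin n → ℂ) : Prop :=
  SphericalCuspForm α μ ∧ (∀ (p : Nat.Primes) i, ‖α p i‖ < ((p : ℕ) : ℝ) ^ (1 / 2 : ℝ)) ∧
    ∀ i, |(μ i).re| < 1 / 2

theorem one_le_cond {n : ℕ} (μ : Fin n → ℂ) : 1 ≤ cond μ := by
  unfold cond
  refine Finset.prod_induction _ (fun x : ℝ => 1 ≤ x)
    (fun a b ha hb => one_le_mul_of_one_le_of_one_le ha hb) le_rfl fun i _ => ?_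
  refine Finset.prod_induction _ (fun x : ℝ => 1 ≤ x)
    (fun a b ha hb => one_le_mul_of_one_le_of_one_le ha hb) le_rfl fun j _ => ?_
  linarith [norm_nonneg (μ i - μ j)]

/-- **The least prime with small Satake parameters of a spherical cusp form on `PGL_4`.** -/
theorem result :
    (∀ ε : ℝ, 0 < ε → ∃ A : ℝ, 0 < A ∧ ∀ (α : Nat.Primes → Fin 4 → ℂ) (μ : Fin 4 → ℂ), Form α μ →
      Form (fun p => ext2 (α p)) (sum2 μ) →
      ∃ p : Nat.Primes, ((p : ℕ) : ℝ) ≤ A * (cond μ ^ 2 * cond (sum2 μ)) ^ (1 + ε) ∧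
        ∀ i, ‖α p i‖ < 17251 / 10000) ∧
    ∀ r : ℝ, 1 < r → (r + r⁻¹) + 3 < (r + r⁻¹) ^ 2 → ∃ (A : ℝ) (B : ℕ), 0 < A ∧
      ∀ (α : Nat.Primes → Fin 4 → ℂ) (μ : Fin 4 → ℂ), Form α μ → Form (fun p => ext2 (α p)) (sum2 μ) →
      ∃ p : Nat.Primes, ((p : ℕ) : ℝ) ≤ A * (cond μ * cond (sum2 μ)) ^ B ∧ ∀ i, ‖α p i‖ < r := by
  constructor
  · intro ε hε
    obtain ⟨A, hA0, hA⟩ := Pool.Agent.H406.GLL.gl4_least (a := 2) (b := 1) (r := 17251 / 10000) (by norm_num)
      le_rfl (by norm_num) (by norm_num) hε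
    refine ⟨A, hA0, fun α μ h h' => ?_⟩
    obtain ⟨p, hp, hpr⟩ := hA α μ h.1 h'.1 h.2.1 h.2.2 h'.2.1 h'.2.2
    rw [pow_one] at hp
    exact ⟨p, hp, hpr⟩
  · intro r hr hR
    have h2 := Pool.Agent.H406.GLL.add_inv_mono (le_refl (1 : ℝ)) hr.le
    norm_num at h2
    obtain ⟨a, b, ha, hb, hab⟩ := Pool.Agent.H406.GLL.exists_ab h2 hR
    obtain ⟨A, hA0, hA⟩ := Pool.Agent.H406.GLL.gl4_least ha hb hr hab one_pos
    refine ⟨A, 2 * (a + b), hA0, fun α μ h h' => ?_⟩
    obtain ⟨p, hp, hpr⟩ := hA α μ h.1 h'.1 h.2.1 h.2.2 h'.2.1 h'.2.2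
    refine ⟨p, hp.trans (mul_le_mul_of_nonneg_left ?_ hA0.le), hpr⟩
    have c1 : 1 ≤ cond μ := one_le_cond μ
    have c2 : 1 ≤ cond (sum2 μ) := one_le_cond (sum2 μ)
    have h3 : cond μ ^ a * cond (sum2 μ) ^ b ≤ (cond μ * cond (sum2 μ)) ^ (a + b) := by
      rw [mul_pow]
      exact mul_le_mul (pow_le_pow_right₀ c1 (by omega)) (pow_le_pow_right₀ c2 (by omega)) (by positivity)
        (by positivity)
    have h4 : (cond μ ^ a * cond (sum2 μ) ^ b) ^ (1 + 1 : ℝ) ≤ ((cond μ * cond (sum2 μ)) ^ (a + b)) ^ 2 := by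
      have e : (1 + 1 : ℝ) = ((2 : ℕ) : ℝ) := by norm_num
      rw [e, Real.rpow_natCast]
      exact pow_le_pow_left₀ (by positivity) h3 2
    rw [← pow_mul, mul_comm (a + b) 2] at h4
    exact h4

end Pool.Agent.Results.MP_fa98d2_nt.LeastPrimePGL4
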